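import Pool.Agent.Y501.SY.Stm

/-!
# Project SY, piece PLANAR: compact null sets in the plane
-/

set_option autoImplicit false

open Set Filter Topology MeasureTheory Metric
open scoped Manifold ContDiff Convolution

noncomputable section

namespace Pool.Agent.Y925.SY

theorem bump {E : Type} [NormedAddCommGroup E] [NormedSpace ℝ E] [FiniteDimensional ℝ E]
    [MeasurableSpace E] [BorelSpace E] (μ : Measure E) [IsFiniteMeasureOnCompacts μ]
    [μ.OuterRegular] (K : Set E) (hK : IsCompact K) (δ : ℝ) (hδ : μ K < ENNReal.ofReal δ) :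
    ∃ u : E → ℝ, ContDiff ℝ ∞ u ∧ (∀ x, 0 ≤ u x) ∧ (∀ x, u x ≤ 1) ∧ (∀ x ∈ K, u x = 1) ∧
      (∃ R : ℝ, 0 < R ∧ ∀ x, R ≤ ‖x‖ → u x = 0) ∧ ∫ x, u x ∂μ ≤ δ := by
  have hδ0 : 0 < δ := by
    by_contra h
    rw [ENNReal.ofReal_of_nonpos (not_lt.1 h)] at hδ
    exact absurd hδ not_lt_zero
  obtain ⟨W, hKW, hWo, hWδ⟩ := K.exists_isOpen_lt_of_lt _ hδ
  obtain ⟨R, hR, hKR⟩ := hK.isBounded.subset_ball_lt 0 (0 : E)
  have hopen : IsOpen (W ∩ ball (0 : E) R) := hWo.inter isOpen_ball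
  obtain ⟨f, hf0, hf1, hf⟩ := exists_contMDiffMap_zero_one_of_isClosed 𝓘(ℝ, E) (n := (⊤ : ℕ∞))
    (s := (W ∩ ball (0 : E) R)ᶜ) (t := K) hopen.isClosed_compl hK.isClosed
    (by
      rw [Set.disjoint_left]
      intro x hx hxK
      exact hx ⟨hKW hxK, hKR hxK⟩)
  refine ⟨f, f.contMDiff.contDiff, fun x => (hf x).1, fun x => (hf x).2, fun x hx => hf1 hx,
    ⟨R, hR, fun x hx => hf0 ?_⟩, ?_⟩
  · rintro ⟨-, h⟩
    rw [mem_ball_zero_iff] at h
    linarith
  · have hfin : μ (W ∩ ball (0 : E) R) ≤ ENNReal.ofReal δ :=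
      (measure_mono inter_subset_left).trans hWδ.le
    have hfin2 : μ (W ∩ ball (0 : E) R) ≠ ⊤ := (hfin.trans_lt ENNReal.ofReal_lt_top).ne
    have h1 : ∫ x, f x ∂μ ≤ ∫ x, (W ∩ ball (0 : E) R).indicator (fun _ => (1 : ℝ)) x ∂μ := by
      apply integral_mono_of_nonneg
      · exact Eventually.of_forall fun x => (hf x).1
      · rw [integrable_indicator_iff hopen.measurableSet]
        exact integrableOn_const hfin2
      · refine Eventually.of_forall fun x => ?_
        by_cases hx : x ∈ W ∩ ball (0 : E) R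
        · show f x ≤ (W ∩ ball (0 : E) R).indicator (fun _ => (1 : ℝ)) x
          rw [indicator_of_mem hx]
          exact (hf x).2
        · show f x ≤ (W ∩ ball (0 : E) R).indicator (fun _ => (1 : ℝ)) x
          rw [indicator_of_notMem hx, hf0 hx]
          exact le_refl _
    refine h1.trans ?_
    rw [integral_indicator hopen.measurableSet, setIntegral_const, smul_eq_mul, mul_one]
    exact ENNReal.toReal_le_of_le_ofReal hδ0.le hfin

theorem compSupp {E : Type} [NormedAddCommGroup E] [NormedSpace ℝ E] [FiniteDimensional ℝ E]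
    (u : E → ℝ) (R : ℝ) (hR : ∀ x, R ≤ ‖x‖ → u x = 0) : HasCompactSupport u := by
  haveI : ProperSpace E := FiniteDimensional.proper_real E
  refine HasCompactSupport.of_support_subset_isCompact (isCompact_closedBall (0 : E) R) ?_
  intro x hx
  rw [mem_closedBall_zero_iff]
  by_contra h
  exact hx (hR x (not_le.1 h).le)

theorem prim (w : ℝ → ℝ) (hw : ContDiff ℝ ∞ w) (h0 : ∀ x, 0 ≤ w x) (R : ℝ)
    (hR : ∀ x : ℝ, R ≤ ‖x‖ → w x = 0) (ε : ℝ) (hi : ∫ x, w x ≤ ε) :
    ∃ P : ℝ → ℝ, ContDiff ℝ ∞ P ∧ (∀ x, |P x| ≤ ε) ∧ ∀ x, deriv P x = w x := by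
  have hd : ∀ x, HasDerivAt (fun x => ∫ t in (0 : ℝ)..x, w t) (w x) x := fun x =>
    (hw.continuous.integral_hasStrictDerivAt 0 x).hasDerivAt
  have hde : deriv (fun x => ∫ t in (0 : ℝ)..x, w t) = w := funext fun x => (hd x).deriv
  refine ⟨fun x => ∫ t in (0 : ℝ)..x, w t, ?_, ?_, fun x => (hd x).deriv⟩
  · rw [contDiff_infty_iff_deriv, hde]
    exact ⟨fun x => (hd x).differentiableAt, hw⟩
  · intro x
    have hint : Integrable w := hw.continuous.integrable_of_hasCompactSupport (compSupp w R hR)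
    have h1 := intervalIntegral.norm_integral_le_integral_norm_uIoc (f := w) (a := 0) (b := x)
      (μ := volume)
    have h2 : ∫ t in uIoc (0 : ℝ) x, ‖w t‖ ≤ ∫ t, ‖w t‖ :=
      setIntegral_le_integral hint.norm (Eventually.of_forall fun t => norm_nonneg _)
    have h3 : ∫ t, ‖w t‖ = ∫ t, w t := by
      congr 1
      ext t
      exact Real.norm_of_nonneg (h0 t)
    rw [Real.norm_eq_abs] at h1
    linarith

/-! ### the primitive in the second variable -/

theorem conv_eq (g : ℝ → ℝ) (y : ℝ) :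
    ((Ici (0 : ℝ)).indicator (fun _ => (1 : ℝ)) ⋆[ContinuousLinearMap.mul ℝ ℝ, volume] g) y =
      ∫ t in Iic y, g t := by
  rw [convolution_def]
  have h1 := integral_sub_left_eq_self (fun r => (Ici (0 : ℝ)).indicator (fun _ => (1 : ℝ)) (y - r)
    * g r) volume y
  have h2 : (fun t => ContinuousLinearMap.mul ℝ ℝ ((Ici (0 : ℝ)).indicator (fun _ => (1 : ℝ)) t)
      (g (y - t))) = fun t => (Ici (0 : ℝ)).indicator (fun _ => (1 : ℝ)) (y - (y - t)) *
        g (y - t) := by
    ext t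
    rw [sub_sub_cancel]
    rfl
  rw [h2, h1, ← integral_indicator measurableSet_Iic]
  congr 1
  ext r
  by_cases h : r ≤ y
  · rw [indicator_of_mem (show y - r ∈ Ici (0 : ℝ) from sub_nonneg.2 h),
      indicator_of_mem (show r ∈ Iic y from h), one_mul]
  · rw [indicator_of_notMem (show y - r ∉ Ici (0 : ℝ) from fun h' => h (sub_nonneg.1 h')),
      indicator_of_notMem (show r ∉ Iic y from h), zero_mul]

theorem Qsmooth (u : ℝ × ℝ → ℝ) (hu : ContDiff ℝ ∞ u) (R : ℝ)
    (hR : ∀ z, R ≤ ‖z‖ → u z = 0) :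
    ContDiff ℝ ∞ (fun q : ℝ × ℝ => ∫ t in Iic q.2, u (q.1, t)) := by
  have h1 := contDiffOn_convolution_right_with_param (n := (⊤ : ℕ∞)) (μ := volume)
    (ContinuousLinearMap.mul ℝ ℝ) (s := (univ : Set ℝ)) (k := Icc (-R) R)
    (f := (Ici (0 : ℝ)).indicator (fun _ => (1 : ℝ))) (g := fun (x t : ℝ) => u (x, t))
    isOpen_univ isCompact_Icc (by
      intro p x _ hx
      apply hR
      have h2 : R ≤ |x| := by
        by_contra h3
        rw [not_le, abs_lt] at h3
        exact hx ⟨h3.1.le, h3.2.le⟩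
      exact h2.trans (le_max_right _ _)) ((locallyIntegrable_const 1).indicator measurableSet_Ici)
    (by
      show ContDiffOn ℝ _ (fun p : ℝ × ℝ => u (p.1, p.2)) _
      exact hu.contDiffOn)
  rw [univ_prod_univ, contDiffOn_univ] at h1
  have h2 : (fun q : ℝ × ℝ => ((Ici (0 : ℝ)).indicator (fun _ => (1 : ℝ))
      ⋆[ContinuousLinearMap.mul ℝ ℝ, volume] fun t => u (q.1, t)) q.2) =
      fun q : ℝ × ℝ => ∫ t in Iic q.2, u (q.1, t) := by
    ext q
    exact conv_eq _ _
  rwa [h2] at h1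

theorem sec_int (u : ℝ × ℝ → ℝ) (hu : Continuous u) (R : ℝ)
    (hR : ∀ z, R ≤ ‖z‖ → u z = 0) (x : ℝ) : Integrable fun t => u (x, t) := by
  refine Continuous.integrable_of_hasCompactSupport (by fun_prop) (compSupp _ R ?_)
  intro t ht
  exact hR _ (ht.trans (le_max_right _ _))

theorem Qderiv (u : ℝ × ℝ → ℝ) (hu : Continuous u) (R : ℝ)
    (hR : ∀ z, R ≤ ‖z‖ → u z = 0) (x y : ℝ) :
    HasDerivAt (fun y => ∫ t in Iic y, u (x, t)) (u (x, y)) y := by
  have hc : Continuous fun t => u (x, t) := by fun_prop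
  have hint := sec_int u hu R hR x
  have h1 : (fun y => ∫ t in Iic y, u (x, t)) =
      fun y => (∫ t in Iic (0 : ℝ), u (x, t)) + ∫ t in (0 : ℝ)..y, u (x, t) := by
    ext y
    rw [← intervalIntegral.integral_Iic_sub_Iic hint.integrableOn hint.integrableOn]
    ring
  rw [h1]
  exact (hc.integral_hasStrictDerivAt 0 y).hasDerivAt.const_add _

theorem t_PLANAR : Pool.Agent.Y501.SY.S_PLANAR := by
  intro K hK hK0 ε hε
  obtain ⟨u, hu, hu0, hu1, huK, ⟨R, hRpos, hR⟩, hui⟩ := bump (volume : Measure (ℝ × ℝ)) K hK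
    (ε ^ 2 / 2) (by rw [hK0]; exact ENNReal.ofReal_pos.2 (by positivity))
  obtain ⟨Q, hQ⟩ : ∃ Q : ℝ × ℝ → ℝ, ∀ q, Q q = ∫ t in Iic q.2, u (q.1, t) := ⟨_, fun _ => rfl⟩
  have hQs : ContDiff ℝ ∞ Q := by
    have h1 : Q = fun q : ℝ × ℝ => ∫ t in Iic q.2, u (q.1, t) := funext hQ
    rw [h1]
    exact Qsmooth u hu R hR
  obtain ⟨g, hg⟩ : ∃ g : ℝ → ℝ, ∀ x, g x = ∫ t, u (x, t) := ⟨_, fun _ => rfl⟩
  have hgQ : ∀ x, g x = Q (x, R) := by
    intro x
    rw [hg, hQ]
    symm
    apply setIntegral_eq_integral_of_forall_compl_eq_zero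
    intro t ht
    apply hR
    have h1 : R < t := not_le.1 ht
    exact (h1.le.trans (le_abs_self t)).trans (le_max_right _ _)
  have hgc : Continuous g := by
    have h1 : g = fun x => Q (x, R) := funext hgQ
    rw [h1]
    exact hQs.continuous.comp (by fun_prop)
  have hg0 : ∀ x : ℝ, R ≤ |x| → g x = 0 := by
    intro x hx
    rw [hg]
    have h1 : (fun t => u (x, t)) = fun _ => 0 := by
      ext t
      exact hR _ (hx.trans (le_max_left _ _))
    rw [h1, integral_zero]
  have huint : Integrable u := hu.continuous.integrable_of_hasCompactSupport (compSupp u R hR)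
  have hgint : Integrable g := by
    have h1 : g = fun x => ∫ t, u (x, t) := funext hg
    rw [h1]
    rw [Measure.volume_eq_prod] at huint
    exact huint.integral_prod_left
  have hgi : ∫ x, g x ≤ ε ^ 2 / 2 := by
    refine le_trans (le_of_eq ?_) hui
    rw [Measure.volume_eq_prod, integral_prod u (by rwa [Measure.volume_eq_prod] at huint)]
    congr 1
    ext x
    exact hg x
  have hgn : ∀ x, 0 ≤ g x := fun x => by
    rw [hg]
    exact integral_nonneg fun t => hu0 _
  -- the bad set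
  obtain ⟨B, hB⟩ : ∃ B : Set ℝ, B = {x | ε ≤ g x} := ⟨_, rfl⟩
  have hBc : IsCompact B := by
    rw [hB]
    refine IsCompact.of_isClosed_subset (isCompact_Icc (a := -R) (b := R))
      (isClosed_le continuous_const hgc) ?_
    intro x hx
    have h1 : ε ≤ g x := hx
    have h2 : |x| < R := by
      by_contra h3
      rw [hg0 x (not_lt.1 h3)] at h1
      linarith
    rw [abs_lt] at h2
    exact ⟨h2.1.le, h2.2.le⟩
  have hBv : volume B < ENNReal.ofReal ε := by
    have h1 := mul_meas_ge_le_integral_of_nonneg (μ := volume) (f := g)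
      (Eventually.of_forall hgn) hgint ε
    rw [← hB] at h1
    have h2 : volume.real B ≤ ε / 2 := by
      have h3 : ε * volume.real B ≤ ε * (ε / 2) := by
        refine h1.trans (hgi.trans (le_of_eq ?_))
        ring
      exact le_of_mul_le_mul_left h3 hε
    have h4 : volume B ≠ ⊤ := hBc.measure_lt_top.ne
    rw [← ENNReal.ofReal_toReal h4]
    rw [ENNReal.ofReal_lt_ofReal_iff hε]
    exact lt_of_le_of_lt h2 (by linarith)
  obtain ⟨w, hw, hw0, hw1, hwB, ⟨R', -, hR'⟩, hwi⟩ := bump (volume : Measure ℝ) B hBc ε hBv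
  obtain ⟨P, hP, hPε, hPw⟩ := prim w hw hw0 R' hR' ε hwi
  have hQs2 : ContDiff ℝ ∞ (fun q : ℝ × ℝ => (1 - w q.1) * Q q) :=
    (contDiff_const.sub (hw.comp contDiff_fst)).mul hQs
  refine ⟨P, fun q => (1 - w q.1) * Q q, hP, hQs2, hPε, ?_, ?_⟩
  · intro q
    have h1 : 0 ≤ Q q := by
      rw [hQ]
      exact integral_nonneg fun t => hu0 _
    have h2 : Q q ≤ g q.1 := by
      rw [hQ, hg]
      exact setIntegral_le_integral (sec_int u hu.continuous R hR q.1)
        (Eventually.of_forall fun t => hu0 _)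
    have h3 : 0 ≤ 1 - w q.1 := by linarith [hw1 q.1]
    rw [abs_of_nonneg (mul_nonneg h3 h1)]
    by_cases hq : q.1 ∈ B
    · rw [hwB _ hq, sub_self, zero_mul]
      exact hε.le
    · have h4 : g q.1 < ε := by
        rw [hB] at hq
        exact not_le.1 hq
      have h5 : 1 - w q.1 ≤ 1 := by linarith [hw0 q.1]
      calc (1 - w q.1) * Q q ≤ 1 * Q q := mul_le_mul_of_nonneg_right h5 h1
        _ ≤ ε := by linarith
  · intro z hz
    have h1 : HasDerivAt (fun y => (1 - w z.1) * Q (z.1, y)) ((1 - w z.1) * u (z.1, z.2)) z.2 := by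
      have h2 : (fun y => (1 - w z.1) * Q (z.1, y)) =
          fun y => (1 - w z.1) * ∫ t in Iic y, u (z.1, t) := by
        ext y
        rw [hQ]
      rw [h2]
      exact (Qderiv u hu.continuous R hR z.1 z.2).const_mul _
    have h3 : HasFDerivAt (fun q : ℝ × ℝ => (1 - w q.1) * Q q)
        (fderiv ℝ (fun q : ℝ × ℝ => (1 - w q.1) * Q q) z) z :=
      (hQs2.differentiable (by simp) z).hasFDerivAt
    have h4 : HasDerivAt (fun y : ℝ => ((z.1, y) : ℝ × ℝ)) ((0, 1) : ℝ × ℝ) z.2 :=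
      (hasDerivAt_const z.2 z.1).prodMk (hasDerivAt_id z.2)
    have h5 : HasDerivAt (fun y => (1 - w z.1) * Q (z.1, y))
        (fderiv ℝ (fun q : ℝ × ℝ => (1 - w q.1) * Q q) z ((0, 1) : ℝ × ℝ)) z.2 :=
      HasFDerivAt.comp_hasDerivAt z.2 (f := fun y : ℝ => ((z.1, y) : ℝ × ℝ)) h3 h4
    have h6 := h5.unique h1
    rw [h6, hPw]
    have h7 : u (z.1, z.2) = 1 := huK z hz
    rw [h7]
    ring

end Pool.Agent.Y925.SY
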